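import Pool.Agent.H804R5.Fin2

/-!
The quadratic level `r(m)` of the problem file is at least `m + 2` for every even `m` with `m` at
least `4`.
-/

set_option autoImplicit false

namespace Pool.Agent.Results.MP_c0c498_gt.EvenLevel

/-- the set of all `n` for which there are `n` real quadratic forms on `ℂ^m`, each changing sign
under multiplication by `i`, without a common nonzero zero; its least element is `r(m)`. -/
def levels (m : ℕ) : Set ℕ :=
  {n : ℕ | ∃ q : Fin n → QuadraticForm ℝ (Fin m → ℂ),
    (∀ j z, q j (Complex.I • z) = - q j z) ∧ ∀ z, z ≠ 0 → ∃ j, q j z ≠ 0}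

/-- adding zero forms. -/
theorem levels_mono {m n : ℕ} (h : n ∈ levels m) {n' : ℕ} (hn : n ≤ n') : n' ∈ levels m := by
  obtain ⟨q, hq, hf⟩ := h
  refine ⟨fun j => if hj : j.val < n then q ⟨j.val, hj⟩ else 0, ?_, ?_⟩
  · intro j z
    by_cases hj : j.val < n
    · simp only [hj, dif_pos]
      exact hq _ z
    · simp only [hj, dif_neg, not_false_eq_true]
      simp
  · intro z hz
    obtain ⟨j, hj⟩ := hf z hz
    refine ⟨⟨j.val, lt_of_lt_of_le j.2 hn⟩, ?_⟩
    simpa using hj

/-- real part of the square of a coordinate. -/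
noncomputable def reForm {m : ℕ} (k : Fin m) : QuadraticForm ℝ (Fin m → ℂ) :=
  (QuadraticMap.sq (R := ℝ)).comp (Complex.reLm ∘ₗ (LinearMap.proj k : (Fin m → ℂ) →ₗ[ℝ] ℂ)) -
    (QuadraticMap.sq (R := ℝ)).comp (Complex.imLm ∘ₗ (LinearMap.proj k : (Fin m → ℂ) →ₗ[ℝ] ℂ))

/-- product of real and imaginary part of a coordinate. -/
noncomputable def imForm {m : ℕ} (k : Fin m) : QuadraticForm ℝ (Fin m → ℂ) :=
  QuadraticMap.linMulLin (Complex.reLm ∘ₗ (LinearMap.proj k : (Fin m → ℂ) →ₗ[ℝ] ℂ))
    (Complex.imLm ∘ₗ (LinearMap.proj k : (Fin m → ℂ) →ₗ[ℝ] ℂ))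

theorem reForm_apply {m : ℕ} (k : Fin m) (z : Fin m → ℂ) :
    reForm k z = (z k).re * (z k).re - (z k).im * (z k).im := by
  simp [reForm]

theorem imForm_apply {m : ℕ} (k : Fin m) (z : Fin m → ℂ) :
    imForm k z = (z k).re * (z k).im := by
  simp [imForm]

theorem levels_nonempty (m : ℕ) : (levels m).Nonempty := by
  refine ⟨m + m, fun j => Fin.addCases (fun k => reForm k) (fun k => imForm k) j, ?_, ?_⟩
  · intro j z
    refine Fin.addCases (fun k => ?_) (fun k => ?_) j
    · simp only [Fin.addCases_left, reForm_apply]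
      simp
    · simp only [Fin.addCases_right, imForm_apply]
      simp; ring
  · intro z hz
    obtain ⟨k, hk⟩ : ∃ k, z k ≠ 0 := by
      by_contra hcon
      push Not at hcon
      exact hz (funext hcon)
    by_contra hcon
    push Not at hcon
    have h1 := hcon (Fin.castAdd m k)
    have h2 := hcon (Fin.natAdd m k)
    simp only [Fin.addCases_left, reForm_apply] at h1
    simp only [Fin.addCases_right, imForm_apply] at h2
    apply hk
    rcases mul_eq_zero.1 h2 with h | h
    · apply Complex.ext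
      · simpa using h
      · rw [h] at h1
        simpa using h1
    · apply Complex.ext
      · rw [h] at h1
        simpa using h1
      · simpa using h

/-- For every even `m ≥ 4` the quadratic level satisfies `r(m) ≥ m + 2`. -/
theorem result (m : ℕ) (hm : Even m) (h4 : 4 ≤ m) :
    m + 2 ≤ sInf {n : ℕ | ∃ q : Fin n → QuadraticForm ℝ (Fin m → ℂ),
        (∀ j z, q j (Complex.I • z) = - q j z) ∧
        ∀ z, z ≠ 0 → ∃ j, q j z ≠ 0} := by
  have h1 : sInf (levels m) ∈ levels m := Nat.sInf_mem (levels_nonempty m)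
  change m + 2 ≤ sInf (levels m)
  by_contra hcon
  obtain ⟨q, hq, hf⟩ := levels_mono h1 (n' := m + 1) (by omega)
  exact Pool.Agent.H804R5.no_forms_even (Nat.even_iff.1 hm) h4 q hq hf

end Pool.Agent.Results.MP_c0c498_gt.EvenLevel
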